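import Mathlib

set_option autoImplicit false
set_option linter.unusedSectionVars false
open MeasureTheory

namespace Pool.Agent.Helper685.HG
section partA

/-- second order bound for powers -/
lemma taylor_bound (k : ℕ) : ∃ C : ℝ, 1 ≤ C ∧ ∀ a b : ℝ,
    |(a + b) ^ (k + 2) - a ^ (k + 2) - (k + 2) * a ^ (k + 1) * b| ≤
      C * (b ^ 2 * (|a| + |b|) ^ k) := by
  induction k with
  | zero =>
    refine ⟨1, le_refl _, fun a b => ?_⟩
    have : (a + b) ^ (0 + 2) - a ^ (0 + 2) - ((0 : ℕ) + 2) * a ^ (0 + 1) * b = b ^ 2 := by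
      push_cast; ring
    rw [this]
    simp [abs_of_nonneg (sq_nonneg b)]
  | succ k ih =>
    obtain ⟨C, hC, h⟩ := ih
    refine ⟨C + (k + 2), by have : (0 : ℝ) ≤ k := Nat.cast_nonneg k; linarith, fun a b => ?_⟩
    have e : (a + b) ^ (k + 1 + 2) - a ^ (k + 1 + 2) - (((k + 1 : ℕ) : ℝ) + 2) * a ^ (k + 1 + 1) * b
        = (a + b) * ((a + b) ^ (k + 2) - a ^ (k + 2) - (k + 2) * a ^ (k + 1) * b)
          + (k + 2) * a ^ (k + 1) * b ^ 2 := by
      push_cast; ring
    rw [e]
    have hab : |a + b| ≤ |a| + |b| := abs_add_le a b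
    have h1 : |(a + b) * ((a + b) ^ (k + 2) - a ^ (k + 2) - (k + 2) * a ^ (k + 1) * b)| ≤
        (|a| + |b|) * (C * (b ^ 2 * (|a| + |b|) ^ k)) := by
      rw [abs_mul]
      exact mul_le_mul hab (h a b) (abs_nonneg _) (by positivity)
    have h2 : |((k : ℝ) + 2) * a ^ (k + 1) * b ^ 2| ≤ (k + 2) * ((|a| + |b|) ^ (k + 1) * b ^ 2) := by
      rw [abs_mul, abs_mul, abs_of_nonneg (show (0 : ℝ) ≤ k + 2 by positivity), abs_pow,
        abs_of_nonneg (sq_nonneg b), mul_assoc]
      have : |a| ^ (k + 1) ≤ (|a| + |b|) ^ (k + 1) :=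
        pow_le_pow_left₀ (abs_nonneg a) (by linarith [abs_nonneg b]) _
      have h3 : |a| ^ (k + 1) * b ^ 2 ≤ (|a| + |b|) ^ (k + 1) * b ^ 2 :=
        mul_le_mul_of_nonneg_right this (sq_nonneg b)
      exact mul_le_mul_of_nonneg_left h3 (by positivity)
    calc _ ≤ _ := abs_add_le _ _
      _ ≤ (|a| + |b|) * (C * (b ^ 2 * (|a| + |b|) ^ k)) + (k + 2) * ((|a| + |b|) ^ (k + 1) * b ^ 2) :=
        add_le_add h1 h2
      _ = _ := by ring

/-- the pointwise inequality behind martingale type 2 of L^(2m) -/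
lemma pointwise (m : ℕ) : ∃ K : ℝ, 1 ≤ K ∧ ∀ a b : ℝ,
    (a + b) ^ (2 * (m + 1)) ≤
      (2 * (m + 1)) * a ^ (2 * m + 1) * b + (a ^ 2 + K * b ^ 2) ^ (m + 1) := by
  obtain ⟨C, hC, h⟩ := taylor_bound (2 * m)
  refine ⟨C * 2 ^ m, ?_, fun a b => ?_⟩
  · have : (1 : ℝ) ≤ 2 ^ m := one_le_pow₀ (by norm_num)
    nlinarith
  · have h1 := (abs_le.1 (h a b)).2
    have hK : (1 : ℝ) ≤ C * 2 ^ m := by
      have : (1 : ℝ) ≤ 2 ^ m := one_le_pow₀ (by norm_num)
      nlinarith
    have h2 : (|a| + |b|) ^ (2 * m) ≤ 2 ^ m * (a ^ 2 + b ^ 2) ^ m := by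
      rw [pow_mul, ← mul_pow]
      apply pow_le_pow_left₀ (by positivity)
      have := sq_nonneg (|a| - |b|)
      nlinarith [sq_abs a, sq_abs b]
    have h3 : a ^ (2 * m + 2) + (C * 2 ^ m) * b ^ 2 * (a ^ 2 + b ^ 2) ^ m ≤
        (a ^ 2 + (C * 2 ^ m) * b ^ 2) ^ (m + 1) := by
      have e1 : (a ^ 2 + (C * 2 ^ m) * b ^ 2) ^ (m + 1) =
          a ^ 2 * (a ^ 2 + (C * 2 ^ m) * b ^ 2) ^ m +
          (C * 2 ^ m) * b ^ 2 * (a ^ 2 + (C * 2 ^ m) * b ^ 2) ^ m := by ring
      rw [e1]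
      have hx : a ^ 2 ≤ a ^ 2 + (C * 2 ^ m) * b ^ 2 := by
        have : 0 ≤ (C * 2 ^ m) * b ^ 2 := by positivity
        linarith
      have hy : a ^ 2 + b ^ 2 ≤ a ^ 2 + (C * 2 ^ m) * b ^ 2 := by
        nlinarith [sq_nonneg b]
      have h4 : (a ^ 2) ^ m ≤ (a ^ 2 + (C * 2 ^ m) * b ^ 2) ^ m :=
        pow_le_pow_left₀ (by positivity) hx _
      have h5 : (a ^ 2 + b ^ 2) ^ m ≤ (a ^ 2 + (C * 2 ^ m) * b ^ 2) ^ m :=
        pow_le_pow_left₀ (by positivity) hy _
      have h6 : a ^ (2 * m + 2) = a ^ 2 * (a ^ 2) ^ m := by rw [← pow_mul]; ring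
      rw [h6]
      apply add_le_add
      · exact mul_le_mul_of_nonneg_left h4 (sq_nonneg a)
      · exact mul_le_mul_of_nonneg_left h5 (by positivity)
    have h7 : C * (b ^ 2 * (|a| + |b|) ^ (2 * m)) ≤
        (C * 2 ^ m) * b ^ 2 * (a ^ 2 + b ^ 2) ^ m := by
      calc C * (b ^ 2 * (|a| + |b|) ^ (2 * m)) ≤ C * (b ^ 2 * (2 ^ m * (a ^ 2 + b ^ 2) ^ m)) := by
            gcongr
        _ = _ := by ring
    have h8 : (a + b) ^ (2 * (m + 1)) = (a + b) ^ (2 * m + 2) := by ring_nf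
    rw [h8]
    push_cast at h1
    have h9 : (2 * ((m : ℝ) + 1)) * a ^ (2 * m + 1) * b = (2 * (m : ℝ) + 2) * a ^ (2 * m + 1) * b := by
      ring
    rw [h9]
    linarith

/-- Radon type convexity inequality -/
lemma radon (m : ℕ) (x y A B : ℝ) (hx : 0 ≤ x) (hy : 0 ≤ y) (hA : 0 < A) (hB : 0 < B) :
    (x + y) ^ (m + 1) ≤ (A + B) ^ m * (x ^ (m + 1) / A ^ m + y ^ (m + 1) / B ^ m) := by
  have hc := (convexOn_pow (𝕜 := ℝ) (m + 1))
  have hAB : 0 < A + B := by linarith
  have h1 : x * (A + B) / A ∈ Set.Ici (0 : ℝ) := by simp only [Set.mem_Ici]; positivity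
  have h2 : y * (A + B) / B ∈ Set.Ici (0 : ℝ) := by simp only [Set.mem_Ici]; positivity
  have h3 : A / (A + B) + B / (A + B) = 1 := by field_simp
  have := hc.2 h1 h2 (show 0 ≤ A / (A + B) by positivity) (show 0 ≤ B / (A + B) by positivity) h3
  simp only [smul_eq_mul] at this
  have e1 : A / (A + B) * (x * (A + B) / A) + B / (A + B) * (y * (A + B) / B) = x + y := by
    field_simp
  rw [e1] at this
  refine this.trans (le_of_eq ?_)
  rw [div_pow, div_pow, mul_pow, mul_pow]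
  field_simp
  ring

end partA
end Pool.Agent.Helper685.HG

namespace Pool.Agent.Helper685.HG
section partB

variable {α : Type*} [m0 : MeasurableSpace α] {ι : Type*}

/-- sigma-algebra generated by a subfamily -/
@[reducible] def sig (A : ι → Set α) (I : Set ι) : MeasurableSpace α := MeasurableSpace.generateFrom (A '' I)

lemma sig_le (A : ι → Set α) (hA : ∀ i, MeasurableSet (A i)) (I : Set ι) : sig A I ≤ m0 := by
  apply MeasurableSpace.generateFrom_le
  rintro _ ⟨i, _, rfl⟩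
  exact hA i

lemma sig_mono (A : ι → Set α) {I J : Set ι} (h : I ⊆ J) : sig A I ≤ sig A J :=
  MeasurableSpace.generateFrom_mono (Set.image_mono h)

lemma sig_mem (A : ι → Set α) {I : Set ι} {i : ι} (h : i ∈ I) : MeasurableSet[sig A I] (A i) :=
  MeasurableSpace.measurableSet_generateFrom ⟨i, h, rfl⟩

variable [LinearOrder ι]

/-- truncated conditional expectation of the indicator -/
noncomputable def gg (μ : Measure α) (A : ι → Set α) (i : ι) (x : α) : ℝ :=
  max 0 (min 1 ((μ[(A i).indicator (fun _ => (1 : ℝ)) | sig A (Set.Iio i)]) x))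

/-- martingale difference -/
noncomputable def dd (μ : Measure α) (A : ι → Set α) (i : ι) (x : α) : ℝ :=
  (A i).indicator (fun _ => (1 : ℝ)) x - gg μ A i x

variable (μ : Measure α) (A : ι → Set α)

lemma gg_nonneg (i : ι) (x : α) : 0 ≤ gg μ A i x := le_max_left _ _

lemma gg_le_one (i : ι) (x : α) : gg μ A i x ≤ 1 := max_le zero_le_one (min_le_left _ _)

lemma dd_abs (i : ι) (x : α) : |dd μ A i x| ≤ 1 := by
  unfold dd
  have h1 := gg_nonneg μ A i x
  have h2 := gg_le_one μ A i x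
  by_cases hx : x ∈ A i
  · rw [Set.indicator_of_mem hx, abs_le]; constructor <;> linarith
  · rw [Set.indicator_of_notMem hx, abs_le]; constructor <;> linarith

lemma gg_sm (i : ι) : StronglyMeasurable[sig A (Set.Iio i)] (gg μ A i) := by
  unfold gg
  have h := stronglyMeasurable_condExp (μ := μ) (m := sig A (Set.Iio i))
    (f := (A i).indicator (fun _ => (1 : ℝ)))
  have hc : Continuous (fun t : ℝ => max 0 (min 1 t)) := by fun_prop
  exact hc.comp_stronglyMeasurable h

lemma dd_sm {I : Set ι} {i : ι} (hi : i ∈ I) (hI : Set.Iio i ⊆ I) :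
    StronglyMeasurable[sig A I] (dd μ A i) := by
  unfold dd
  have h1 : StronglyMeasurable[sig A I] ((A i).indicator (fun _ => (1 : ℝ))) :=
    (@stronglyMeasurable_const _ _ (sig A I) _ (1 : ℝ)).indicator (sig_mem A hi)
  exact h1.sub ((gg_sm μ A i).mono (sig_mono A hI))

lemma integrable_bdd [IsFiniteMeasure μ] {f : α → ℝ} (hf : StronglyMeasurable f) {B : ℝ}
    (hB : ∀ x, |f x| ≤ B) : Integrable f μ :=
  Integrable.of_bound hf.aestronglyMeasurable B (Filter.Eventually.of_forall hB)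

lemma gg_ae [IsFiniteMeasure μ] (hA : ∀ i, MeasurableSet (A i)) (i : ι) :
    gg μ A i =ᵐ[μ] μ[(A i).indicator (fun _ => (1 : ℝ)) | sig A (Set.Iio i)] := by
  have hm := sig_le A hA (Set.Iio i)
  have hint : Integrable ((A i).indicator (fun _ => (1 : ℝ))) μ :=
    (integrable_const (1 : ℝ)).indicator (hA i)
  have h0 : 0 ≤ᵐ[μ] μ[(A i).indicator (fun _ => (1 : ℝ)) | sig A (Set.Iio i)] :=
    condExp_nonneg (Filter.Eventually.of_forall
      (fun x => Set.indicator_nonneg (fun _ _ => zero_le_one) x))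
  have h1 : μ[(A i).indicator (fun _ => (1 : ℝ)) | sig A (Set.Iio i)] ≤ᵐ[μ]
      μ[(fun _ => (1 : ℝ)) | sig A (Set.Iio i)] :=
    condExp_mono hint (integrable_const 1) (Filter.Eventually.of_forall
      (fun x => Set.indicator_le_self' (fun _ _ => zero_le_one) x))
  rw [condExp_const hm] at h1
  filter_upwards [h0, h1] with x hx0 hx1
  unfold gg
  simp only [Pi.zero_apply] at hx0
  rw [min_eq_right hx1, max_eq_right hx0]

lemma orth [IsFiniteMeasure μ] (hA : ∀ i, MeasurableSet (A i)) (i : ι) {φ : α → ℝ}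
    (hφ : StronglyMeasurable[sig A (Set.Iio i)] φ) {B : ℝ} (hB : ∀ x, |φ x| ≤ B) :
    ∫ x, φ x * dd μ A i x ∂μ = 0 := by
  have hm := sig_le A hA (Set.Iio i)
  have hint : Integrable ((A i).indicator (fun _ => (1 : ℝ))) μ :=
    (integrable_const (1 : ℝ)).indicator (hA i)
  have hφ' : StronglyMeasurable φ := hφ.mono hm
  have hind : StronglyMeasurable ((A i).indicator (fun _ => (1 : ℝ))) :=
    stronglyMeasurable_const.indicator (hA i)
  have hgs : StronglyMeasurable (gg μ A i) := (gg_sm μ A i).mono hm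
  have hB0 : ∀ x : α, 0 ≤ B := fun x => (abs_nonneg _).trans (hB x)
  have i1 : Integrable (φ * (A i).indicator (fun _ => (1 : ℝ))) μ := by
    refine integrable_bdd μ (hφ'.mul hind) (B := B) (fun x => ?_)
    simp only [Pi.mul_apply, abs_mul]
    by_cases hx : x ∈ A i
    · rw [Set.indicator_of_mem hx]; simpa using hB x
    · rw [Set.indicator_of_notMem hx]; simpa using hB0 x
  have i2 : Integrable (fun x => φ x * gg μ A i x) μ := by
    refine integrable_bdd μ (hφ'.mul hgs) (B := B) (fun x => ?_)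
    rw [abs_mul, abs_of_nonneg (gg_nonneg μ A i x)]
    calc |φ x| * gg μ A i x ≤ B * 1 :=
          mul_le_mul (hB x) (gg_le_one μ A i x) (gg_nonneg μ A i x) (hB0 x)
      _ = B := mul_one B
  have e1 : ∫ x, φ x * dd μ A i x ∂μ =
      ∫ x, (φ * (A i).indicator (fun _ => (1 : ℝ))) x ∂μ - ∫ x, φ x * gg μ A i x ∂μ := by
    rw [← integral_sub i1 i2]
    congr 1
    ext x
    simp only [dd, Pi.mul_apply]
    ring
  have e2 : ∫ x, (φ * (A i).indicator (fun _ => (1 : ℝ))) x ∂μ =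
      ∫ x, (μ[φ * (A i).indicator (fun _ => (1 : ℝ)) | sig A (Set.Iio i)]) x ∂μ :=
    (integral_condExp hm).symm
  have e3 : μ[φ * (A i).indicator (fun _ => (1 : ℝ)) | sig A (Set.Iio i)] =ᵐ[μ]
      φ * μ[(A i).indicator (fun _ => (1 : ℝ)) | sig A (Set.Iio i)] :=
    condExp_mul_of_stronglyMeasurable_left hφ i1 hint
  have e4 : ∫ x, (μ[φ * (A i).indicator (fun _ => (1 : ℝ)) | sig A (Set.Iio i)]) x ∂μ =
      ∫ x, φ x * gg μ A i x ∂μ := by
    apply integral_congr_ae
    filter_upwards [e3, gg_ae μ A hA i] with x hx1 hx2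
    rw [hx1, Pi.mul_apply, hx2]
  rw [e1, e2, e4, sub_self]

/-- one step of the martingale estimate -/
lemma step [IsFiniteMeasure μ] (hA : ∀ i, MeasurableSet (A i)) (m : ℕ) (K c : ℝ) (hc : 0 ≤ c)
    (hcK : K * c ^ 2 ≤ 1) (hK1 : 1 ≤ K)
    (hK : ∀ a b : ℝ, (a + b) ^ (2 * (m + 1)) ≤
      (2 * (m + 1)) * a ^ (2 * m + 1) * b + (a ^ 2 + K * b ^ 2) ^ (m + 1))
    (i : ι) {f0 f1 : α → ℝ}
    (h0 : StronglyMeasurable[sig A (Set.Iio i)] f0) (h1 : StronglyMeasurable[sig A (Set.Iio i)] f1)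
    {B0 B1 : ℝ} (hB0 : ∀ x, |f0 x| ≤ B0) (hB1 : ∀ x, |f1 x| ≤ B1)
    {M a b : ℝ} (ha : 0 < a) (hb : 0 < b)
    (hf0 : ∫ x, f0 x ^ (2 * (m + 1)) ∂μ ≤ M * a ^ (m + 1))
    (hf1 : ∫ x, f1 x ^ (2 * (m + 1)) ∂μ ≤ M * b ^ (m + 1)) :
    ∫ x, (f0 x + c * dd μ A i x * f1 x) ^ (2 * (m + 1)) ∂μ ≤ M * (a + b) ^ (m + 1) := by
  have hm := sig_le A hA (Set.Iio i)
  have s0 : StronglyMeasurable f0 := h0.mono hm
  have s1 : StronglyMeasurable f1 := h1.mono hm
  have sd : StronglyMeasurable (dd μ A i) :=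
    (dd_sm μ A (Set.mem_univ i) (Set.subset_univ _)).mono (sig_le A hA Set.univ)
  -- orthogonality
  have ho : ∫ x, (f0 x ^ (2 * m + 1) * f1 x) * dd μ A i x ∂μ = 0 := by
    refine orth μ A hA i (φ := fun x => f0 x ^ (2 * m + 1) * f1 x) ?_ (B := B0 ^ (2 * m + 1) * B1) ?_
    · exact (h0.pow _).mul h1
    · intro x
      rw [abs_mul, abs_pow]
      exact mul_le_mul (pow_le_pow_left₀ (abs_nonneg _) (hB0 x) _) (hB1 x) (abs_nonneg _)
        (pow_nonneg ((abs_nonneg _).trans (hB0 x)) _)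
  -- integrability
  have iL : Integrable (fun x => (f0 x + c * dd μ A i x * f1 x) ^ (2 * (m + 1))) μ := by
    refine integrable_bdd μ ((s0.add (((stronglyMeasurable_const (b := c)).mul sd).mul s1)).pow _)
      (B := (B0 + c * 1 * B1) ^ (2 * (m + 1))) (fun x => ?_)
    rw [abs_pow]
    apply pow_le_pow_left₀ (abs_nonneg _)
    refine (abs_add_le _ _).trans (add_le_add (hB0 x) ?_)
    rw [abs_mul, abs_mul, abs_of_nonneg hc]
    have := dd_abs μ A i x
    have hb1 := hB1 x
    exact mul_le_mul (mul_le_mul_of_nonneg_left this hc) hb1 (abs_nonneg _) (by positivity)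
  have iO : Integrable (fun x => (f0 x ^ (2 * m + 1) * f1 x) * dd μ A i x) μ := by
    refine integrable_bdd μ (((s0.pow _).mul s1).mul sd)
      (B := B0 ^ (2 * m + 1) * B1 * 1) (fun x => ?_)
    rw [abs_mul, abs_mul, abs_pow]
    have hp0 : 0 ≤ B0 := (abs_nonneg _).trans (hB0 x)
    have hp1 : 0 ≤ B1 := (abs_nonneg _).trans (hB1 x)
    exact mul_le_mul (mul_le_mul (pow_le_pow_left₀ (abs_nonneg _) (hB0 x) _) (hB1 x) (abs_nonneg _)
        (pow_nonneg hp0 _)) (dd_abs μ A i x) (abs_nonneg _) (by positivity)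
  have i0 : Integrable (fun x => f0 x ^ (2 * (m + 1))) μ := by
    refine integrable_bdd μ (s0.pow _) (B := B0 ^ (2 * (m + 1))) (fun x => ?_)
    rw [abs_pow]
    exact pow_le_pow_left₀ (abs_nonneg _) (hB0 x) _
  have i1 : Integrable (fun x => f1 x ^ (2 * (m + 1))) μ := by
    refine integrable_bdd μ (s1.pow _) (B := B1 ^ (2 * (m + 1))) (fun x => ?_)
    rw [abs_pow]
    exact pow_le_pow_left₀ (abs_nonneg _) (hB1 x) _
  -- pointwise bound
  have hpt : ∀ x, (f0 x + c * dd μ A i x * f1 x) ^ (2 * (m + 1)) ≤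
      (2 * (m + 1) * c) * ((f0 x ^ (2 * m + 1) * f1 x) * dd μ A i x) +
      ((a + b) ^ m / a ^ m * f0 x ^ (2 * (m + 1)) + (a + b) ^ m / b ^ m * f1 x ^ (2 * (m + 1))) := by
    intro x
    have h := hK (f0 x) (c * dd μ A i x * f1 x)
    have hd2 : dd μ A i x ^ 2 ≤ 1 := by
      have := dd_abs μ A i x
      rw [← sq_abs]
      exact pow_le_one₀ (abs_nonneg _) this
    have hb2 : K * (c * dd μ A i x * f1 x) ^ 2 ≤ f1 x ^ 2 := by
      have e : K * (c * dd μ A i x * f1 x) ^ 2 = (K * c ^ 2) * dd μ A i x ^ 2 * f1 x ^ 2 := by ring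
      rw [e]
      have : (K * c ^ 2) * dd μ A i x ^ 2 ≤ 1 * 1 :=
        mul_le_mul hcK hd2 (sq_nonneg _) zero_le_one
      nlinarith [sq_nonneg (f1 x)]
    have h2 : (f0 x ^ 2 + K * (c * dd μ A i x * f1 x) ^ 2) ^ (m + 1) ≤
        (f0 x ^ 2 + f1 x ^ 2) ^ (m + 1) := by
      apply pow_le_pow_left₀
      · have : 0 ≤ K * (c * dd μ A i x * f1 x) ^ 2 := by positivity
        positivity
      · linarith
    have h3 := radon m (f0 x ^ 2) (f1 x ^ 2) a b (sq_nonneg _) (sq_nonneg _) ha hb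
    have e1 : (f0 x ^ 2) ^ (m + 1) = f0 x ^ (2 * (m + 1)) := (pow_mul _ _ _).symm
    have e2 : (f1 x ^ 2) ^ (m + 1) = f1 x ^ (2 * (m + 1)) := (pow_mul _ _ _).symm
    rw [e1, e2] at h3
    have e3 : (a + b) ^ m * (f0 x ^ (2 * (m + 1)) / a ^ m + f1 x ^ (2 * (m + 1)) / b ^ m) =
      ((a + b) ^ m / a ^ m * f0 x ^ (2 * (m + 1)) + (a + b) ^ m / b ^ m * f1 x ^ (2 * (m + 1))) := by
      ring
    rw [e3] at h3
    have e4 : 2 * ((m : ℝ) + 1) * f0 x ^ (2 * m + 1) * (c * dd μ A i x * f1 x) =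
      (2 * (m + 1) * c) * ((f0 x ^ (2 * m + 1) * f1 x) * dd μ A i x) := by ring
    rw [e4] at h
    linarith
  have hI := integral_mono iL ((iO.const_mul (2 * (m + 1) * c)).add
    ((i0.const_mul ((a + b) ^ m / a ^ m)).add (i1.const_mul ((a + b) ^ m / b ^ m)))) hpt
  refine hI.trans ?_
  have eI : ∫ x, ((fun x => (2 * (m + 1) * c) * ((f0 x ^ (2 * m + 1) * f1 x) * dd μ A i x)) +
      ((fun x => (a + b) ^ m / a ^ m * f0 x ^ (2 * (m + 1))) +
        (fun x => (a + b) ^ m / b ^ m * f1 x ^ (2 * (m + 1))))) x ∂μ =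
      (a + b) ^ m / a ^ m * ∫ x, f0 x ^ (2 * (m + 1)) ∂μ +
      (a + b) ^ m / b ^ m * ∫ x, f1 x ^ (2 * (m + 1)) ∂μ := by
    rw [integral_add' (iO.const_mul (2 * (m + 1) * c))
      ((i0.const_mul ((a + b) ^ m / a ^ m)).add (i1.const_mul ((a + b) ^ m / b ^ m))),
      integral_add' (i0.const_mul ((a + b) ^ m / a ^ m)) (i1.const_mul ((a + b) ^ m / b ^ m)),
      integral_const_mul, integral_const_mul, integral_const_mul, ho, mul_zero, zero_add]
  rw [eI]
  have q1 : (a + b) ^ m / a ^ m * ∫ x, f0 x ^ (2 * (m + 1)) ∂μ ≤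
      (a + b) ^ m / a ^ m * (M * a ^ (m + 1)) :=
    mul_le_mul_of_nonneg_left hf0 (by positivity)
  have q2 : (a + b) ^ m / b ^ m * ∫ x, f1 x ^ (2 * (m + 1)) ∂μ ≤
      (a + b) ^ m / b ^ m * (M * b ^ (m + 1)) :=
    mul_le_mul_of_nonneg_left hf1 (by positivity)
  refine (add_le_add q1 q2).trans (le_of_eq ?_)
  field_simp
  ring

end partB
end Pool.Agent.Helper685.HG

namespace Pool.Agent.Helper685.HG
section partC

variable {α : Type*} [m0 : MeasurableSpace α] {ι : Type*} [LinearOrder ι]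
variable (μ : Measure α) (A : ι → Set α) (c : ℝ)

/-- chaos functions -/
noncomputable def DD (S : Finset ι) (x : α) : ℝ := ∏ j ∈ S, (c * dd μ A j x)

lemma DD_empty (x : α) : DD μ A c ∅ x = 1 := by simp [DD]

lemma DD_insert {i : ι} {S : Finset ι} (h : i ∉ S) (x : α) :
    DD μ A c (insert i S) x = c * dd μ A i x * DD μ A c S x := by
  simp only [DD]
  rw [Finset.prod_insert h]

lemma DD_sm {I : Set ι} {S : Finset ι} (h : ∀ i ∈ S, i ∈ I ∧ Set.Iio i ⊆ I) :
    StronglyMeasurable[sig A I] (DD μ A c S) := by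
  unfold DD
  refine Finset.stronglyMeasurable_fun_prod S (fun i hi => ?_)
  exact (@stronglyMeasurable_const _ _ (sig A I) _ c).mul (dd_sm μ A (h i hi).1 (h i hi).2)

lemma DD_abs (hc0 : 0 ≤ c) (hc1 : c ≤ 1) (S : Finset ι) (x : α) : |DD μ A c S x| ≤ 1 := by
  unfold DD
  rw [Finset.abs_prod]
  apply Finset.prod_le_one
  · intro i _; exact abs_nonneg _
  · intro i _
    rw [abs_mul, abs_of_nonneg hc0]
    calc c * |dd μ A i x| ≤ 1 * 1 := mul_le_mul hc1 (dd_abs μ A i x) (abs_nonneg _) zero_le_one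
      _ = 1 := one_mul 1

lemma sum_bdd (hc0 : 0 ≤ c) (hc1 : c ≤ 1) (s : Finset (Finset ι)) (a : Finset ι → ℝ)
    (g : Finset ι → Finset ι) (x : α) :
    |∑ S ∈ s, a (g S) * DD μ A c S x| ≤ ∑ S ∈ s, |a (g S)| := by
  refine (Finset.abs_sum_le_sum_abs _ _).trans (Finset.sum_le_sum (fun S _ => ?_))
  rw [abs_mul]
  calc |a (g S)| * |DD μ A c S x| ≤ |a (g S)| * 1 :=
        mul_le_mul_of_nonneg_left (DD_abs μ A c hc0 hc1 S x) (abs_nonneg _)
    _ = _ := mul_one _

lemma fin_est [IsFiniteMeasure μ] (hA : ∀ i, MeasurableSet (A i)) (m : ℕ) (K : ℝ) (hc0 : 0 ≤ c)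
    (hc1 : c ≤ 1) (hcK : K * c ^ 2 ≤ 1) (hK1 : 1 ≤ K)
    (hK : ∀ a b : ℝ, (a + b) ^ (2 * (m + 1)) ≤
      (2 * (m + 1)) * a ^ (2 * m + 1) * b + (a ^ 2 + K * b ^ 2) ^ (m + 1))
    {ε : ℝ} (hε : 0 < ε) (U : Finset ι) : ∀ a : Finset ι → ℝ,
    ∫ x, (∑ S ∈ U.powerset, a S * DD μ A c S x) ^ (2 * (m + 1)) ∂μ ≤
      μ.real Set.univ * (∑ S ∈ U.powerset, (a S ^ 2 + ε)) ^ (m + 1) := by
  induction U using Finset.induction_on_max with
  | empty =>
    intro a
    simp only [Finset.powerset_empty, Finset.sum_singleton, DD_empty, mul_one]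
    rw [integral_const, smul_eq_mul]
    apply mul_le_mul_of_nonneg_left _ measureReal_nonneg
    rw [pow_mul]
    exact pow_le_pow_left₀ (sq_nonneg _) (by linarith) _
  | insert i U hi ih =>
    intro a
    have hiU : i ∉ U := fun h => lt_irrefl _ (hi i h)
    have hsub : ∀ S ∈ U.powerset, ∀ j ∈ S, j ∈ Set.Iio i ∧ Set.Iio j ⊆ Set.Iio i := by
      intro S hS j hj
      have : j < i := hi j (Finset.mem_powerset.1 hS hj)
      exact ⟨this, Set.Iio_subset_Iio this.le⟩
    have hnot : ∀ S ∈ U.powerset, i ∉ S := fun S hS h => hiU (Finset.mem_powerset.1 hS h)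
    have h0 := ih a
    have h1 := ih (fun S => a (insert i S))
    have hpos : ∀ b : Finset ι → ℝ, 0 < ∑ S ∈ U.powerset, (b S ^ 2 + ε) := by
      intro b
      apply Finset.sum_pos
      · intro S _; positivity
      · exact ⟨∅, Finset.empty_mem_powerset _⟩
    have sm : ∀ b : Finset ι → ℝ, StronglyMeasurable[sig A (Set.Iio i)]
        (fun x => ∑ S ∈ U.powerset, b S * DD μ A c S x) := by
      intro b
      refine Finset.stronglyMeasurable_fun_sum _ (fun S hS => ?_)
      exact (@stronglyMeasurable_const _ _ (sig A (Set.Iio i)) _ (b S)).mul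
        (DD_sm μ A c (hsub S hS))
    have key := step μ A hA m K c hc0 hcK hK1 hK i (sm a) (sm (fun S => a (insert i S)))
      (fun x => sum_bdd μ A c hc0 hc1 U.powerset a id x)
      (fun x => sum_bdd μ A c hc0 hc1 U.powerset a (fun S => insert i S) x)
      (hpos a) (hpos (fun S => a (insert i S))) h0 h1
    have e1 : ∀ x, ∑ S ∈ (insert i U).powerset, a S * DD μ A c S x =
        ∑ S ∈ U.powerset, a S * DD μ A c S x +
        c * dd μ A i x * ∑ S ∈ U.powerset, a (insert i S) * DD μ A c S x := by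
      intro x
      rw [Finset.sum_powerset_insert hiU]
      congr 1
      rw [Finset.mul_sum]
      refine Finset.sum_congr rfl (fun S hS => ?_)
      rw [DD_insert μ A c (hnot S hS)]
      ring
    have e2 : ∑ S ∈ (insert i U).powerset, (a S ^ 2 + ε) =
        ∑ S ∈ U.powerset, (a S ^ 2 + ε) + ∑ S ∈ U.powerset, (a (insert i S) ^ 2 + ε) :=
      Finset.sum_powerset_insert hiU _
    rw [e2]
    simp only [e1]
    exact key

/-- the estimate for arbitrary finite sums -/
lemma fin_est' [IsFiniteMeasure μ] (hA : ∀ i, MeasurableSet (A i)) (m : ℕ) (K : ℝ) (hc0 : 0 ≤ c)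
    (hc1 : c ≤ 1) (hcK : K * c ^ 2 ≤ 1) (hK1 : 1 ≤ K)
    (hK : ∀ a b : ℝ, (a + b) ^ (2 * (m + 1)) ≤
      (2 * (m + 1)) * a ^ (2 * m + 1) * b + (a ^ 2 + K * b ^ 2) ^ (m + 1))
    (s : Finset (Finset ι)) (a : Finset ι → ℝ) :
    ∫ x, (∑ S ∈ s, a S * DD μ A c S x) ^ (2 * (m + 1)) ∂μ ≤
      μ.real Set.univ * (∑ S ∈ s, a S ^ 2) ^ (m + 1) := by
  classical
  set U : Finset ι := s.sup id with hU
  have hsU : s ⊆ U.powerset := by
    intro S hS
    rw [Finset.mem_powerset]
    exact Finset.le_sup (f := id) hS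
  set b : Finset ι → ℝ := fun S => if S ∈ s then a S else 0 with hb
  have e1 : ∀ x, ∑ S ∈ U.powerset, b S * DD μ A c S x = ∑ S ∈ s, a S * DD μ A c S x := by
    intro x
    rw [← Finset.sum_subset hsU]
    · refine Finset.sum_congr rfl (fun S hS => ?_)
      simp [hb, hS]
    · intro S _ hS
      simp [hb, hS]
  have e2 : ∑ S ∈ U.powerset, b S ^ 2 = ∑ S ∈ s, a S ^ 2 := by
    rw [← Finset.sum_subset hsU]
    · refine Finset.sum_congr rfl (fun S hS => ?_)
      simp [hb, hS]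
    · intro S _ hS
      simp [hb, hS]
  have h : ∀ ε : ℝ, 0 < ε → ∫ x, (∑ S ∈ s, a S * DD μ A c S x) ^ (2 * (m + 1)) ∂μ ≤
      μ.real Set.univ * (∑ S ∈ s, a S ^ 2 + (U.powerset.card : ℝ) * ε) ^ (m + 1) := by
    intro ε hε
    have := fin_est μ A c hA m K hc0 hc1 hcK hK1 hK hε U b
    simp only [e1] at this
    rw [Finset.sum_add_distrib, e2, Finset.sum_const, nsmul_eq_mul] at this
    exact this
  have hlim : Filter.Tendsto (fun ε : ℝ => μ.real Set.univ *
      (∑ S ∈ s, a S ^ 2 + (U.powerset.card : ℝ) * ε) ^ (m + 1)) (nhdsWithin 0 (Set.Ioi 0))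
      (nhds (μ.real Set.univ * (∑ S ∈ s, a S ^ 2 + (U.powerset.card : ℝ) * 0) ^ (m + 1))) := by
    apply Filter.Tendsto.mono_left _ nhdsWithin_le_nhds
    have : Continuous (fun ε : ℝ => μ.real Set.univ *
      (∑ S ∈ s, a S ^ 2 + (U.powerset.card : ℝ) * ε) ^ (m + 1)) := by fun_prop
    exact this.tendsto 0
  rw [mul_zero, add_zero] at hlim
  refine ge_of_tendsto hlim ?_
  filter_upwards [self_mem_nhdsWithin] with ε hε
  exact h ε hε

end partC
end Pool.Agent.Helper685.HG

namespace Pool.Agent.Helper685.HG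
section partD

section op
variable {κ : Type} {E : Type*} [NormedAddCommGroup E] [NormedSpace ℝ E] [CompleteSpace E]

lemma l2_sum_le (a : lp (fun _ : κ => ℝ) 2) (s : Finset κ) : ∑ S ∈ s, (a S) ^ 2 ≤ ‖a‖ ^ 2 := by
  have h := lp.sum_rpow_le_norm_rpow (p := 2) (by norm_num) a s
  simpa using h

lemma l2_summable (a : lp (fun _ : κ => ℝ) 2) : Summable (fun S => (a S) ^ 2) := by
  refine summable_of_sum_le (fun S => sq_nonneg _) (c := ‖a‖ ^ 2) (fun s => l2_sum_le a s)

lemma op_summable (v : κ → E) (C : ℝ)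
    (h : ∀ (s : Finset κ) (a : κ → ℝ), ‖∑ S ∈ s, a S • v S‖ ≤ C * Real.sqrt (∑ S ∈ s, a S ^ 2))
    (hC : 0 < C) (a : lp (fun _ : κ => ℝ) 2) : Summable (fun S => a S • v S) := by
  rw [summable_iff_vanishing_norm]
  intro ε hε
  obtain ⟨s, hs⟩ := (summable_iff_vanishing_norm.1 (l2_summable a)) ((ε / C) ^ 2) (by positivity)
  refine ⟨s, fun t ht => ?_⟩
  have h1 := hs t ht
  have h2 : 0 ≤ ∑ S ∈ t, (a S) ^ 2 := Finset.sum_nonneg (fun _ _ => sq_nonneg _)
  rw [Real.norm_eq_abs, abs_of_nonneg h2] at h1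
  have h3 : Real.sqrt (∑ S ∈ t, (a S) ^ 2) < ε / C := by
    rw [Real.sqrt_lt' (by positivity)]
    exact h1
  calc _ ≤ C * Real.sqrt (∑ S ∈ t, (a S) ^ 2) := h t (fun S => a S)
    _ < C * (ε / C) := mul_lt_mul_of_pos_left h3 hC
    _ = ε := by field_simp

lemma exists_op (v : κ → E) (C : ℝ)
    (h : ∀ (s : Finset κ) (a : κ → ℝ), ‖∑ S ∈ s, a S • v S‖ ≤ C * Real.sqrt (∑ S ∈ s, a S ^ 2))
    (hC : 0 < C) :
    ∃ T : lp (fun _ : κ => ℝ) 2 →L[ℝ] E, ∀ S, v S ∈ LinearMap.range (T : lp (fun _ : κ => ℝ) 2 →ₗ[ℝ] E) := by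
  classical
  have hsum := op_summable v C h hC
  let L : lp (fun _ : κ => ℝ) 2 →ₗ[ℝ] E :=
    { toFun := fun a => ∑' S, a S • v S
      map_add' := by
        intro a b
        rw [← (hsum a).tsum_add (hsum b)]
        congr 1
        ext S
        rw [lp.coeFn_add, Pi.add_apply, add_smul]
      map_smul' := by
        intro r a
        rw [RingHom.id_apply, ← (hsum a).tsum_const_smul]
        congr 1
        ext S
        rw [lp.coeFn_smul, Pi.smul_apply, smul_eq_mul, mul_smul] }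
  have hL : ∀ a, ‖L a‖ ≤ C * ‖a‖ := by
    intro a
    have ht : Filter.Tendsto (fun s : Finset κ => ‖∑ S ∈ s, a S • v S‖) Filter.atTop (nhds ‖L a‖) :=
      (hsum a).hasSum.norm
    refine le_of_tendsto' ht (fun s => ?_)
    refine (h s (fun S => a S)).trans ?_
    apply mul_le_mul_of_nonneg_left _ hC.le
    rw [Real.sqrt_le_left (norm_nonneg _)]
    exact l2_sum_le a s
  refine ⟨L.mkContinuous C hL, fun S => ?_⟩
  refine ⟨lp.single 2 S (1 : ℝ), ?_⟩
  change ∑' R, (lp.single 2 S (1 : ℝ) : lp (fun _ : κ => ℝ) 2) R • v R = v S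
  rw [tsum_eq_single S]
  · rw [lp.single_apply_self, one_smul]
  · intro R hR
    rw [lp.single_apply_ne _ _ _ hR, zero_smul]

end op

end partD
end Pool.Agent.Helper685.HG

namespace Pool.Agent.Helper685.HG
section partE

variable {α : Type*} [m0 : MeasurableSpace α] {ι : Type*}
variable (μ : Measure α) (A : ι → Set α) (c : ℝ) (p : ENNReal)

lemma mul_memLp (d : α → ℝ) (hd : StronglyMeasurable d) (hd1 : ∀ x, |d x| ≤ 1) {f : α → ℝ}
    (hf : MemLp f p μ) : MemLp (fun x => d x * f x) p μ := by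
  refine MemLp.of_le hf (hd.aestronglyMeasurable.mul hf.aestronglyMeasurable) ?_
  refine Filter.Eventually.of_forall (fun x => ?_)
  rw [Real.norm_eq_abs, Real.norm_eq_abs, abs_mul]
  calc |d x| * |f x| ≤ 1 * |f x| := mul_le_mul_of_nonneg_right (hd1 x) (abs_nonneg _)
    _ = |f x| := one_mul _

/-- multiplication operator by a bounded function -/
lemma exists_mulOp [Fact (1 ≤ p)] (d : α → ℝ) (hd : StronglyMeasurable d) (hd1 : ∀ x, |d x| ≤ 1) :
    ∃ M : Lp ℝ p μ →L[ℝ] Lp ℝ p μ, ∀ (f : α → ℝ) (hf : MemLp f p μ),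
      M (hf.toLp f) = (mul_memLp μ p d hd hd1 hf).toLp (fun x => d x * f x) := by
  let L : Lp ℝ p μ →ₗ[ℝ] Lp ℝ p μ :=
    { toFun := fun f => (mul_memLp μ p d hd hd1 (Lp.memLp f)).toLp (fun x => d x * f x)
      map_add' := by
        intro f g
        rw [← MemLp.toLp_add]
        apply MemLp.toLp_congr
        filter_upwards [Lp.coeFn_add f g] with x hx
        rw [hx, Pi.add_apply, Pi.add_apply, mul_add]
      map_smul' := by
        intro r f
        rw [RingHom.id_apply, ← MemLp.toLp_const_smul]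
        apply MemLp.toLp_congr
        filter_upwards [Lp.coeFn_smul r f] with x hx
        rw [hx, Pi.smul_apply, Pi.smul_apply, smul_eq_mul, smul_eq_mul]
        ring }
  have hL : ∀ f, ‖L f‖ ≤ 1 * ‖f‖ := by
    intro f
    rw [one_mul]
    apply Lp.norm_le_norm_of_ae_le
    filter_upwards [(mul_memLp μ p d hd hd1 (Lp.memLp f)).coeFn_toLp] with x hx
    change ‖((mul_memLp μ p d hd hd1 (Lp.memLp f)).toLp (fun x => d x * f x)) x‖ ≤ ‖f x‖
    rw [hx, Real.norm_eq_abs, Real.norm_eq_abs, abs_mul]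
    calc |d x| * |f x| ≤ 1 * |f x| := mul_le_mul_of_nonneg_right (hd1 x) (abs_nonneg _)
      _ = |f x| := one_mul _
  refine ⟨L.mkContinuous 1 hL, fun f hf => ?_⟩
  change (mul_memLp μ p d hd hd1 (Lp.memLp (hf.toLp f))).toLp (fun x => d x * (hf.toLp f) x) = _
  apply MemLp.toLp_congr
  filter_upwards [hf.coeFn_toLp] with x hx
  rw [hx]

/-- pi-system of finite intersections -/
def fint (I : Set ι) : Set (Set α) := {s | ∃ J : Finset ι, (J : Set ι) ⊆ I ∧ s = ⋂ j ∈ J, A j}

lemma fint_pi (I : Set ι) : IsPiSystem (fint A I) := by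
  classical
  rintro _ ⟨J1, h1, rfl⟩ _ ⟨J2, h2, rfl⟩ _
  refine ⟨J1 ∪ J2, ?_, ?_⟩
  · rw [Finset.coe_union]; exact Set.union_subset h1 h2
  · ext x
    simp only [Set.mem_inter_iff, Set.mem_iInter, Finset.mem_union]
    constructor
    · rintro ⟨ha, hb⟩ j (hj | hj)
      · exact ha j hj
      · exact hb j hj
    · intro hj
      exact ⟨fun j hj1 => hj j (Or.inl hj1), fun j hj2 => hj j (Or.inr hj2)⟩

lemma sig_eq_fint (I : Set ι) : sig A I = MeasurableSpace.generateFrom (fint A I) := by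
  apply le_antisymm
  · apply MeasurableSpace.generateFrom_mono
    rintro _ ⟨i, hi, rfl⟩
    exact ⟨{i}, by simpa using hi, by simp⟩
  · apply MeasurableSpace.generateFrom_le
    rintro _ ⟨J, hJ, rfl⟩
    exact Finset.measurableSet_biInter J (fun j hj => sig_mem A (hJ hj))

/-- from a generating pi-system to all measurable functions -/
lemma dense_of_fint [Fact (1 ≤ p)] (hp : p ≠ ⊤) [IsFiniteMeasure μ]
    (hA : ∀ i, MeasurableSet (A i)) (I : Set ι) (W : Submodule ℝ (Lp ℝ p μ))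
    (hW : IsClosed (W : Set (Lp ℝ p μ)))
    (h : ∀ J : Finset ι, (J : Set ι) ⊆ I → ∀ hs : MeasurableSet (⋂ j ∈ J, A j),
      indicatorConstLp p hs (measure_ne_top μ _) (1 : ℝ) ∈ W) :
    ∀ f : α → ℝ, StronglyMeasurable[sig A I] f → ∀ hf : MemLp f p μ, hf.toLp f ∈ W := by
  have hm : sig A I ≤ m0 := sig_le A hA I
  -- sets
  have hset : ∀ s : Set α, ∀ hs' : MeasurableSet[sig A I] s, ∀ hs : MeasurableSet s,
      indicatorConstLp p hs (measure_ne_top μ _) (1 : ℝ) ∈ W := by
    intro s hs'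
    induction s, hs' using MeasurableSpace.induction_on_inter (sig_eq_fint A I) (fint_pi A I) with
    | empty =>
      intro hs
      rw [indicatorConstLp_empty]
      exact W.zero_mem
    | basic t ht =>
      obtain ⟨J, hJ, rfl⟩ := ht
      intro hs
      exact h J hJ hs
    | compl t htm ih =>
      intro hs
      have ht := hm _ htm
      have e : indicatorConstLp p (MeasurableSet.univ) (measure_ne_top μ _) (1 : ℝ) =
          indicatorConstLp p ht (measure_ne_top μ _) (1 : ℝ) +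
          indicatorConstLp p ht.compl (measure_ne_top μ _) (1 : ℝ) := by
        rw [← indicatorConstLp_disjoint_union ht ht.compl (measure_ne_top μ _)
          (measure_ne_top μ _) disjoint_compl_right]
        congr 1
        exact (Set.union_compl_self t).symm
      have hu : indicatorConstLp p (MeasurableSet.univ) (measure_ne_top μ _) (1 : ℝ) ∈ W := by
        have := h ∅ (by simp) (by simp)
        convert this using 2
        simp
      have e2 : indicatorConstLp p ht.compl (measure_ne_top μ _) (1 : ℝ) =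
          indicatorConstLp p (MeasurableSet.univ) (measure_ne_top μ _) (1 : ℝ) -
          indicatorConstLp p ht (measure_ne_top μ _) (1 : ℝ) := by
        rw [e]; abel
      rw [e2]
      exact W.sub_mem hu (ih ht)
    | iUnion f hd hfm ih =>
      intro hs
      have hfm' : ∀ i, MeasurableSet (f i) := fun i => hm _ (hfm i)
      let t : ℕ → Set α := fun n => ⋃ i ∈ Finset.range n, f i
      have htm : ∀ n, MeasurableSet (t n) := fun n =>
        Finset.measurableSet_biUnion _ (fun i _ => hfm' i)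
      have hmem : ∀ n, indicatorConstLp p (htm n) (measure_ne_top μ _) (1 : ℝ) ∈ W := by
        intro n
        induction n with
        | zero =>
          have e : indicatorConstLp p (htm 0) (measure_ne_top μ _) (1 : ℝ) = 0 := by
            have : t 0 = ∅ := by simp [t]
            have h2 : indicatorConstLp p (htm 0) (measure_ne_top μ _) (1 : ℝ) =
              indicatorConstLp p (MeasurableSet.empty) (measure_ne_top μ _) (1 : ℝ) := by
              congr 1
            rw [h2, indicatorConstLp_empty]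
          rw [e]; exact W.zero_mem
        | succ n ihn =>
          have hdis : Disjoint (t n) (f n) := by
            rw [Set.disjoint_iUnion₂_left]
            intro i hi
            exact hd (Finset.mem_range.1 hi).ne
          have e : indicatorConstLp p (htm (n + 1)) (measure_ne_top μ _) (1 : ℝ) =
              indicatorConstLp p (htm n) (measure_ne_top μ _) (1 : ℝ) +
              indicatorConstLp p (hfm' n) (measure_ne_top μ _) (1 : ℝ) := by
            rw [← indicatorConstLp_disjoint_union (htm n) (hfm' n) (measure_ne_top μ _)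
              (measure_ne_top μ _) hdis]
            congr 1
            simp only [t]
            rw [Finset.range_add_one, Finset.set_biUnion_insert, Set.union_comm]
          rw [e]
          exact W.add_mem ihn (ih n (hfm' n))
      have hlim : Filter.Tendsto (fun n => indicatorConstLp p (htm n) (measure_ne_top μ _) (1 : ℝ))
          Filter.atTop (nhds (indicatorConstLp p hs (measure_ne_top μ _) (1 : ℝ))) := by
        apply tendsto_indicatorConstLp_set hp
        have hex := tendsto_measure_biUnion_Ici_zero_of_pairwise_disjoint (μ := μ)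
          (fun i => (hfm' i).nullMeasurableSet) hd
        refine tendsto_of_tendsto_of_tendsto_of_le_of_le tendsto_const_nhds hex
          (fun _ => bot_le) (fun n => measure_mono ?_)
        intro x hx
        rcases hx with ⟨hx1, hx2⟩ | ⟨hx1, hx2⟩
        · exfalso
          apply hx2
          simp only [t, Set.mem_iUnion] at hx1
          obtain ⟨i, _, hi⟩ := hx1
          exact Set.mem_iUnion.2 ⟨i, hi⟩
        · obtain ⟨i, hi⟩ := Set.mem_iUnion.1 hx1
          simp only [Set.mem_iUnion]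
          refine ⟨i, ?_, hi⟩
          by_contra hlt
          apply hx2
          simp only [t, Set.mem_iUnion]
          exact ⟨i, Finset.mem_range.2 (by simpa using hlt), hi⟩
      exact hW.mem_of_tendsto hlim (Filter.Eventually.of_forall hmem)
  intro f hf hfp
  refine MemLp.induction_stronglyMeasurable hm hp
    (fun g => ∀ hg : MemLp g p μ, hg.toLp g ∈ W) ?_ ?_ ?_ ?_ hfp hf.aestronglyMeasurable hfp
  · intro r s hs _ hg
    have h1 := hset s hs (hm s hs)
    have e : hg.toLp (s.indicator fun _ => r) =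
        r • indicatorConstLp p (hm s hs) (measure_ne_top μ _) (1 : ℝ) := by
      unfold indicatorConstLp
      rw [← MemLp.toLp_const_smul]
      apply MemLp.toLp_congr
      refine Filter.Eventually.of_forall (fun x => ?_)
      simp only [Pi.smul_apply, smul_eq_mul]
      by_cases hx : x ∈ s
      · simp [hx]
      · simp [hx]
    rw [e]
    exact W.smul_mem r h1
  · intro g1 g2 _ hg1 hg2 _ _ ih1 ih2 hg
    rw [MemLp.toLp_add hg1 hg2]
    exact W.add_mem (ih1 hg1) (ih2 hg2)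
  · have : {g : lpMeas ℝ ℝ (sig A I) p μ | ∀ hg : MemLp (g : α → ℝ) p μ, hg.toLp (g : α → ℝ) ∈ W} =
        (fun g : lpMeas ℝ ℝ (sig A I) p μ => (g : Lp ℝ p μ)) ⁻¹' (W : Set (Lp ℝ p μ)) := by
      ext g
      simp only [Set.mem_ofPred_eq, Set.mem_preimage, SetLike.mem_coe]
      constructor
      · intro hg
        have := hg (Lp.memLp _)
        rwa [Lp.toLp_coeFn] at this
      · intro hg hg'
        rwa [Lp.toLp_coeFn]
    rw [this]
    exact hW.preimage continuous_subtype_val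
  · intro g1 g2 hae hg1 ih hg2
    rw [← MemLp.toLp_congr hg1 hg2 hae]
    exact ih hg1

end partE
end Pool.Agent.Helper685.HG

namespace Pool.Agent.Helper685.HG
section partF

variable {α : Type*} [m0 : MeasurableSpace α] {ι : Type*} [LinearOrder ι]
variable (μ : Measure α) (A : ι → Set α) (c : ℝ) (p : ENNReal)

/-- closed span of the chaos functions with index sets inside `I` -/
noncomputable def WW [Fact (1 ≤ p)] (hD : ∀ S : Finset ι, MemLp (DD μ A c S) p μ) (I : Set ι) :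
    Submodule ℝ (Lp ℝ p μ) :=
  (Submodule.span ℝ
    {v | ∃ S : Finset ι, (S : Set ι) ⊆ I ∧ v = (hD S).toLp (DD μ A c S)}).topologicalClosure

lemma WW_closed [Fact (1 ≤ p)] (hD : ∀ S : Finset ι, MemLp (DD μ A c S) p μ) (I : Set ι) :
    IsClosed (WW μ A c p hD I : Set (Lp ℝ p μ)) :=
  Submodule.isClosed_topologicalClosure _

lemma WW_gen [Fact (1 ≤ p)] (hD : ∀ S : Finset ι, MemLp (DD μ A c S) p μ) {I : Set ι}
    {S : Finset ι} (hS : (S : Set ι) ⊆ I) : (hD S).toLp (DD μ A c S) ∈ WW μ A c p hD I :=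
  Submodule.le_topologicalClosure _ (Submodule.subset_span ⟨S, hS, rfl⟩)

lemma WW_mono [Fact (1 ≤ p)] (hD : ∀ S : Finset ι, MemLp (DD μ A c S) p μ) {I J : Set ι}
    (h : I ⊆ J) : WW μ A c p hD I ≤ WW μ A c p hD J := by
  apply Submodule.topologicalClosure_mono
  apply Submodule.span_mono
  rintro v ⟨S, hS, rfl⟩
  exact ⟨S, hS.trans h, rfl⟩

lemma WW_mul [Fact (1 ≤ p)] (hA : ∀ i, MeasurableSet (A i))
    (hD : ∀ S : Finset ι, MemLp (DD μ A c S) p μ) (hc : c ≠ 0) {I : Set ι} {j : ι} (hj : j ∈ I)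
    (hI : Set.Iio j ⊆ I) {f : α → ℝ} (hf : MemLp f p μ)
    (hfW : hf.toLp f ∈ WW μ A c p hD (Set.Iio j))
    (hdf : MemLp (fun x => dd μ A j x * f x) p μ) :
    hdf.toLp (fun x => dd μ A j x * f x) ∈ WW μ A c p hD I := by
  have sd : StronglyMeasurable (dd μ A j) :=
    (dd_sm μ A (Set.mem_univ j) (Set.subset_univ _)).mono (sig_le A hA Set.univ)
  obtain ⟨M, hM⟩ := exists_mulOp μ p (dd μ A j) sd (dd_abs μ A j)
  have key : WW μ A c p hD (Set.Iio j) ≤ (WW μ A c p hD I).comap (M : Lp ℝ p μ →ₗ[ℝ] Lp ℝ p μ) := by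
    apply Submodule.topologicalClosure_minimal
    · rw [Submodule.span_le]
      rintro v ⟨S, hS, rfl⟩
      simp only [Submodule.comap_coe, Set.mem_preimage, SetLike.mem_coe, ContinuousLinearMap.coe_coe]
      rw [hM]
      have hjS : j ∉ S := fun h => lt_irrefl j (hS h)
      have hsub : ((insert j S : Finset ι) : Set ι) ⊆ I := by
        intro x hx
        rw [Finset.coe_insert] at hx
        rcases hx with rfl | hx
        · exact hj
        · exact hI (hS hx)
      have h1 := WW_gen μ A c p hD hsub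
      have e : (mul_memLp μ p (dd μ A j) sd (dd_abs μ A j) (hD S)).toLp
          (fun x => dd μ A j x * DD μ A c S x) =
          c⁻¹ • (hD (insert j S)).toLp (DD μ A c (insert j S)) := by
        rw [← MemLp.toLp_const_smul]
        apply MemLp.toLp_congr
        refine Filter.Eventually.of_forall (fun x => ?_)
        simp only [Pi.smul_apply, smul_eq_mul]
        rw [DD_insert μ A c hjS]
        field_simp
      rw [e]
      exact Submodule.smul_mem _ _ h1
    · exact (WW_closed μ A c p hD I).preimage M.continuous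
  have h2 := key hfW
  simp only [Submodule.mem_comap, ContinuousLinearMap.coe_coe] at h2
  rw [hM] at h2
  exact h2

lemma P_step [Fact (1 ≤ p)] (hp : p ≠ ⊤) [IsFiniteMeasure μ] (hA : ∀ i, MeasurableSet (A i))
    (hD : ∀ S : Finset ι, MemLp (DD μ A c S) p μ) (hc : c ≠ 0) (I : Set ι)
    (hlow : ∀ j ∈ I, Set.Iio j ⊆ I)
    (ih : ∀ j ∈ I, ∀ f : α → ℝ, StronglyMeasurable[sig A (Set.Iio j)] f →
      ∀ hf : MemLp f p μ, hf.toLp f ∈ WW μ A c p hD (Set.Iio j)) :
    ∀ f : α → ℝ, StronglyMeasurable[sig A I] f →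
      ∀ hf : MemLp f p μ, hf.toLp f ∈ WW μ A c p hD I := by
  refine dense_of_fint μ A p hp hA I _ (WW_closed μ A c p hD I) ?_
  intro J
  induction J using Finset.induction_on_max with
  | empty =>
    intro _ hs
    have h1 := WW_gen μ A c p hD (I := I) (S := ∅) (by simp)
    convert h1 using 1
    unfold indicatorConstLp
    apply MemLp.toLp_congr
    refine Filter.Eventually.of_forall (fun x => ?_)
    simp [DD]
  | insert j J hjmax _ =>
    intro hJ hs
    have hjI : j ∈ I := hJ (by simp)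
    have hIio : Set.Iio j ⊆ I := hlow j hjI
    have hJsub : (J : Set ι) ⊆ Set.Iio j := fun x hx => hjmax x hx
    set B : Set α := ⋂ k ∈ J, A k with hB
    have hBs : MeasurableSet[sig A (Set.Iio j)] B :=
      Finset.measurableSet_biInter J (fun k hk => sig_mem A (hJsub hk))
    have hBm : MeasurableSet B := sig_le A hA _ _ hBs
    have hBsm : StronglyMeasurable[sig A (Set.Iio j)] (B.indicator (fun _ => (1 : ℝ))) :=
      (@stronglyMeasurable_const _ _ (sig A (Set.Iio j)) _ (1 : ℝ)).indicator hBs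
    have hBp : MemLp (B.indicator (fun _ => (1 : ℝ))) p μ :=
      memLp_indicator_const p hBm 1 (Or.inr (measure_ne_top μ _))
    have h1 := ih j hjI _ hBsm hBp
    have sd : StronglyMeasurable (dd μ A j) :=
      (dd_sm μ A (Set.mem_univ j) (Set.subset_univ _)).mono (sig_le A hA Set.univ)
    have hdB : MemLp (fun x => dd μ A j x * B.indicator (fun _ => (1 : ℝ)) x) p μ :=
      mul_memLp μ p _ sd (dd_abs μ A j) hBp
    have hgsm : StronglyMeasurable[sig A (Set.Iio j)]
        (fun x => gg μ A j x * B.indicator (fun _ => (1 : ℝ)) x) := (gg_sm μ A j).mul hBsm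
    have hgB : MemLp (fun x => gg μ A j x * B.indicator (fun _ => (1 : ℝ)) x) p μ := by
      refine mul_memLp μ p _ ((gg_sm μ A j).mono (sig_le A hA _)) (fun x => ?_) hBp
      rw [abs_of_nonneg (gg_nonneg μ A j x)]
      exact gg_le_one μ A j x
    have h2 := WW_mul μ A c p hA hD hc hjI hIio hBp h1 hdB
    have h3 := WW_mono μ A c p hD hIio (ih j hjI _ hgsm hgB)
    have h4 := Submodule.add_mem _ h2 h3
    convert h4 using 1
    rw [← MemLp.toLp_add]
    unfold indicatorConstLp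
    apply MemLp.toLp_congr
    refine Filter.Eventually.of_forall (fun x => ?_)
    simp only [Pi.add_apply]
    rw [← add_mul]
    have e1 : dd μ A j x + gg μ A j x = (A j).indicator (fun _ => (1 : ℝ)) x := by
      unfold dd; ring
    rw [e1]
    by_cases hx1 : x ∈ A j
    · by_cases hx2 : x ∈ B
      · have : x ∈ ⋂ k ∈ insert j J, A k := by
          rw [Finset.set_biInter_insert]; exact ⟨hx1, hx2⟩
        rw [Set.indicator_of_mem this, Set.indicator_of_mem hx1, Set.indicator_of_mem hx2]; simp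
      · have : x ∉ ⋂ k ∈ insert j J, A k := by
          rw [Finset.set_biInter_insert]; exact fun h => hx2 h.2
        rw [Set.indicator_of_notMem this, Set.indicator_of_notMem hx2]; simp
    · have : x ∉ ⋂ k ∈ insert j J, A k := by
        rw [Finset.set_biInter_insert]; exact fun h => hx1 h.1
      rw [Set.indicator_of_notMem this, Set.indicator_of_notMem hx1]; simp

lemma P_all [WellFoundedLT ι] [Fact (1 ≤ p)] (hp : p ≠ ⊤) [IsFiniteMeasure μ]
    (hA : ∀ i, MeasurableSet (A i))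
    (hD : ∀ S : Finset ι, MemLp (DD μ A c S) p μ) (hc : c ≠ 0) :
    ∀ f : α → ℝ, StronglyMeasurable[sig A Set.univ] f →
      ∀ hf : MemLp f p μ, hf.toLp f ∈ WW μ A c p hD Set.univ := by
  have h : ∀ i : ι, ∀ f : α → ℝ, StronglyMeasurable[sig A (Set.Iio i)] f →
      ∀ hf : MemLp f p μ, hf.toLp f ∈ WW μ A c p hD (Set.Iio i) := by
    intro i
    induction i using WellFoundedLT.induction with
    | ind i ih =>
      exact P_step μ A c p hp hA hD hc (Set.Iio i) (fun j hj => Set.Iio_subset_Iio hj.le) ih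
  exact P_step μ A c p hp hA hD hc Set.univ (fun j _ => Set.subset_univ _) (fun j _ => h j)

end partF
end Pool.Agent.Helper685.HG

namespace Pool.Agent.Helper685.HG
section partG

variable {α : Type*} [m0 : MeasurableSpace α] {ι : Type*} [LinearOrder ι]
variable (μ : Measure α) (A : ι → Set α) (c : ℝ) (p : ENNReal)

lemma DD_sm_univ (hA : ∀ i, MeasurableSet (A i)) (S : Finset ι) :
    StronglyMeasurable (DD μ A c S) :=
  (DD_sm μ A c (I := Set.univ) (fun _ _ => ⟨trivial, Set.subset_univ _⟩)).mono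
    (sig_le A hA Set.univ)

lemma DD_memLp [IsFiniteMeasure μ] (hA : ∀ i, MeasurableSet (A i)) (hc0 : 0 ≤ c) (hc1 : c ≤ 1)
    (S : Finset ι) : MemLp (DD μ A c S) p μ :=
  MemLp.of_bound (DD_sm_univ μ A c hA S).aestronglyMeasurable 1
    (Filter.Eventually.of_forall (DD_abs μ A c hc0 hc1 S))

/-- the norm bound -/
lemma norm_bound [Fact (1 ≤ p)] (hp : p ≠ ⊤) [IsFiniteMeasure μ]
    (hA : ∀ i, MeasurableSet (A i)) (m : ℕ) (K : ℝ) (hc0 : 0 ≤ c)
    (hc1 : c ≤ 1) (hcK : K * c ^ 2 ≤ 1) (hK1 : 1 ≤ K)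
    (hK : ∀ a b : ℝ, (a + b) ^ (2 * (m + 1)) ≤
      (2 * (m + 1)) * a ^ (2 * m + 1) * b + (a ^ 2 + K * b ^ 2) ^ (m + 1))
    (hpm : p ≤ ((2 * (m + 1) : ℕ) : ENNReal))
    (hD : ∀ S : Finset ι, MemLp (DD μ A c S) p μ) :
    ∃ C : ℝ, 0 < C ∧ ∀ (s : Finset (Finset ι)) (a : Finset ι → ℝ),
      ‖∑ S ∈ s, a S • (hD S).toLp (DD μ A c S)‖ ≤ C * Real.sqrt (∑ S ∈ s, a S ^ 2) := by
  set q : ENNReal := ((2 * (m + 1) : ℕ) : ENNReal) with hq
  set M : ℝ := μ.real Set.univ with hM
  have hM0 : 0 ≤ M := measureReal_nonneg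
  set t : ENNReal := μ Set.univ ^ (1 / p.toReal - 1 / q.toReal) with ht
  have hqt : q.toReal = 2 * ((m : ℝ) + 1) := by rw [hq, ENNReal.toReal_natCast]; push_cast; ring
  have hp1 : 1 ≤ p := Fact.out
  have hptr : 0 < p.toReal := ENNReal.toReal_pos (by positivity) hp
  have hexp : 0 ≤ 1 / p.toReal - 1 / q.toReal := by
    have : p.toReal ≤ q.toReal := ENNReal.toReal_mono (ENNReal.natCast_ne_top _) hpm
    have := one_div_le_one_div_of_le hptr this
    linarith
  have htop : t ≠ ⊤ := ENNReal.rpow_ne_top_of_nonneg hexp (measure_ne_top μ _)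
  refine ⟨M ^ (q.toReal)⁻¹ * t.toReal + 1, by positivity, fun s a => ?_⟩
  set F : α → ℝ := fun x => ∑ S ∈ s, a S * DD μ A c S x with hF
  have hFsm : StronglyMeasurable F := by
    refine Finset.stronglyMeasurable_fun_sum _ (fun S _ => ?_)
    exact stronglyMeasurable_const.mul (DD_sm_univ μ A c hA S)
  have hFb : ∀ x, |F x| ≤ ∑ S ∈ s, |a S| := fun x => sum_bdd μ A c hc0 hc1 s a id x
  have hFp : MemLp F p μ := MemLp.of_bound hFsm.aestronglyMeasurable _
    (Filter.Eventually.of_forall hFb)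
  have hFq : MemLp F q μ := MemLp.of_bound hFsm.aestronglyMeasurable _
    (Filter.Eventually.of_forall hFb)
  have e : ∑ S ∈ s, a S • (hD S).toLp (DD μ A c S) = hFp.toLp F := by
    have h1 : ∀ r : Finset (Finset ι), ∀ hr : MemLp (fun x => ∑ S ∈ r, a S * DD μ A c S x) p μ,
        ∑ S ∈ r, a S • (hD S).toLp (DD μ A c S) = hr.toLp _ := by
      intro r
      induction r using Finset.induction_on with
      | empty =>
        intro hr
        rw [Finset.sum_empty]
        symm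
        rw [MemLp.toLp_eq_toLp_iff hr (MemLp.zero : MemLp (0 : α → ℝ) p μ) |>.2 ?_]
        · exact MemLp.toLp_zero _
        · refine Filter.Eventually.of_forall (fun x => ?_)
          simp
      | insert S r hS ih =>
        intro hr
        rw [Finset.sum_insert hS]
        have hr' : MemLp (fun x => ∑ S ∈ r, a S * DD μ A c S x) p μ := by
          refine MemLp.of_bound (Finset.stronglyMeasurable_fun_sum _ (fun S _ =>
            stronglyMeasurable_const.mul (DD_sm_univ μ A c hA S))).aestronglyMeasurable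
            (∑ S ∈ r, |a S|) (Filter.Eventually.of_forall
              (fun x => sum_bdd μ A c hc0 hc1 r a id x))
        rw [ih hr', ← MemLp.toLp_const_smul, ← MemLp.toLp_add]
        apply MemLp.toLp_congr
        refine Filter.Eventually.of_forall (fun x => ?_)
        simp only [Pi.add_apply, Pi.smul_apply, smul_eq_mul]
        rw [Finset.sum_insert hS]
    exact h1 s hFp
  rw [e, Lp.norm_toLp]
  have b1 : eLpNorm F p μ ≤ eLpNorm F q μ * t :=
    eLpNorm_le_eLpNorm_mul_rpow_measure_univ hpm hFsm.aestronglyMeasurable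
  have hq0 : q ≠ 0 := by rw [hq]; exact_mod_cast (by omega : 2 * (m + 1) ≠ 0)
  have b2 : eLpNorm F q μ = ENNReal.ofReal ((∫ x, ‖F x‖ ^ q.toReal ∂μ) ^ q.toReal⁻¹) :=
    hFq.eLpNorm_eq_integral_rpow_norm hq0 (ENNReal.natCast_ne_top _)
  have b3 : ∫ x, ‖F x‖ ^ q.toReal ∂μ = ∫ x, F x ^ (2 * (m + 1)) ∂μ := by
    congr 1
    ext x
    rw [hq, ENNReal.toReal_natCast, Real.rpow_natCast, Real.norm_eq_abs, pow_mul, sq_abs,
      ← pow_mul]
  have b4 : ∫ x, F x ^ (2 * (m + 1)) ∂μ ≤ M * (∑ S ∈ s, a S ^ 2) ^ (m + 1) :=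
    fin_est' μ A c hA m K hc0 hc1 hcK hK1 hK s a
  set Q : ℝ := ∑ S ∈ s, a S ^ 2 with hQ
  have hQ0 : 0 ≤ Q := Finset.sum_nonneg (fun _ _ => sq_nonneg _)
  have b5 : (∫ x, ‖F x‖ ^ q.toReal ∂μ) ^ q.toReal⁻¹ ≤ M ^ q.toReal⁻¹ * Real.sqrt Q := by
    rw [b3]
    have hI0 : 0 ≤ ∫ x, F x ^ (2 * (m + 1)) ∂μ :=
      integral_nonneg (fun x => by
        show (0 : ℝ) ≤ F x ^ (2 * (m + 1))
        rw [pow_mul]; positivity)
    have hq' : 0 ≤ q.toReal⁻¹ := by positivity
    calc (∫ x, F x ^ (2 * (m + 1)) ∂μ) ^ q.toReal⁻¹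
        ≤ (M * Q ^ (m + 1)) ^ q.toReal⁻¹ := Real.rpow_le_rpow hI0 b4 hq'
      _ = M ^ q.toReal⁻¹ * (Q ^ (m + 1)) ^ q.toReal⁻¹ :=
          Real.mul_rpow hM0 (pow_nonneg hQ0 _)
      _ = M ^ q.toReal⁻¹ * Real.sqrt Q := by
          congr 1
          rw [← Real.rpow_natCast Q (m + 1), ← Real.rpow_mul hQ0, Real.sqrt_eq_rpow, hqt]
          congr 1
          push_cast
          field_simp
  have b6 : (eLpNorm F p μ).toReal ≤ (M ^ q.toReal⁻¹ * Real.sqrt Q) * t.toReal := by
    have h1 : eLpNorm F p μ ≤ ENNReal.ofReal (M ^ q.toReal⁻¹ * Real.sqrt Q) * t := by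
      refine b1.trans ?_
      rw [b2]
      gcongr
    have h2 : ENNReal.ofReal (M ^ q.toReal⁻¹ * Real.sqrt Q) * t ≠ ⊤ :=
      ENNReal.mul_ne_top ENNReal.ofReal_ne_top htop
    have h3 := ENNReal.toReal_mono h2 h1
    rwa [ENNReal.toReal_mul, ENNReal.toReal_ofReal (by positivity)] at h3
  refine b6.trans ?_
  have hs0 : 0 ≤ Real.sqrt Q := Real.sqrt_nonneg _
  nlinarith

end partG
end Pool.Agent.Helper685.HG
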