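import Pool.Agent.Helper685.HG

set_option autoImplicit false
open MeasureTheory
open scoped ENNReal

namespace Pool.Agent.Helper685.HG

section opK
variable {𝕜 : Type*} [RCLike 𝕜] {κ : Type*} {E : Type*} [NormedAddCommGroup E] [NormedSpace 𝕜 E]
  [CompleteSpace E]

lemma l2K_sum_le (a : lp (fun _ : κ => 𝕜) 2) (s : Finset κ) : ∑ S ∈ s, ‖a S‖ ^ 2 ≤ ‖a‖ ^ 2 := by
  have h := lp.sum_rpow_le_norm_rpow (p := 2) (by norm_num) a s
  simpa using h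

lemma l2K_summable (a : lp (fun _ : κ => 𝕜) 2) : Summable (fun S => ‖a S‖ ^ 2) := by
  refine summable_of_sum_le (fun S => sq_nonneg _) (c := ‖a‖ ^ 2) (fun s => l2K_sum_le a s)

lemma opK_summable (v : κ → E) (C : ℝ)
    (h : ∀ (s : Finset κ) (a : κ → 𝕜), ‖∑ S ∈ s, a S • v S‖ ≤ C * Real.sqrt (∑ S ∈ s, ‖a S‖ ^ 2))
    (hC : 0 < C) (a : lp (fun _ : κ => 𝕜) 2) : Summable (fun S => a S • v S) := by
  rw [summable_iff_vanishing_norm]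
  intro ε hε
  obtain ⟨s, hs⟩ := (summable_iff_vanishing_norm.1 (l2K_summable a)) ((ε / C) ^ 2) (by positivity)
  refine ⟨s, fun t ht => ?_⟩
  have h1 := hs t ht
  have h2 : 0 ≤ ∑ S ∈ t, ‖a S‖ ^ 2 := Finset.sum_nonneg (fun _ _ => sq_nonneg _)
  rw [Real.norm_eq_abs, abs_of_nonneg h2] at h1
  have h3 : Real.sqrt (∑ S ∈ t, ‖a S‖ ^ 2) < ε / C := by
    rw [Real.sqrt_lt' (by positivity)]
    exact h1
  calc _ ≤ C * Real.sqrt (∑ S ∈ t, ‖a S‖ ^ 2) := h t (fun S => a S)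
    _ < C * (ε / C) := mul_lt_mul_of_pos_left h3 hC
    _ = ε := by field_simp

lemma existsK_op (v : κ → E) (C : ℝ)
    (h : ∀ (s : Finset κ) (a : κ → 𝕜), ‖∑ S ∈ s, a S • v S‖ ≤ C * Real.sqrt (∑ S ∈ s, ‖a S‖ ^ 2))
    (hC : 0 < C) :
    ∃ T : lp (fun _ : κ => 𝕜) 2 →L[𝕜] E,
      ∀ S, v S ∈ LinearMap.range (T : lp (fun _ : κ => 𝕜) 2 →ₗ[𝕜] E) := by
  classical
  have hsum := opK_summable v C h hC
  let L : lp (fun _ : κ => 𝕜) 2 →ₗ[𝕜] E :=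
    { toFun := fun a => ∑' S, a S • v S
      map_add' := by
        intro a b
        rw [← (hsum a).tsum_add (hsum b)]
        congr 1
        ext S
        rw [lp.coeFn_add, Pi.add_apply, add_smul]
      map_smul' := by
        intro r a
        rw [RingHom.id_apply, ← (hsum a).tsum_const_smul]
        congr 1
        ext S
        rw [lp.coeFn_smul, Pi.smul_apply, smul_eq_mul, mul_smul] }
  have hL : ∀ a, ‖L a‖ ≤ C * ‖a‖ := by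
    intro a
    have ht : Filter.Tendsto (fun s : Finset κ => ‖∑ S ∈ s, a S • v S‖) Filter.atTop (nhds ‖L a‖) :=
      (hsum a).hasSum.norm
    refine le_of_tendsto' ht (fun s => ?_)
    refine (h s (fun S => a S)).trans ?_
    apply mul_le_mul_of_nonneg_left _ hC.le
    rw [Real.sqrt_le_left (norm_nonneg _)]
    exact l2K_sum_le a s
  refine ⟨L.mkContinuous C hL, fun S => ?_⟩
  refine ⟨lp.single 2 S (1 : 𝕜), ?_⟩
  change ∑' R, (lp.single 2 S (1 : 𝕜) : lp (fun _ : κ => 𝕜) 2) R • v R = v S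
  rw [tsum_eq_single S]
  · rw [lp.single_apply_self, one_smul]
  · intro R hR
    rw [lp.single_apply_ne _ _ _ hR, zero_smul]

end opK

section cplx
variable {𝕜 : Type*} [RCLike 𝕜] {α : Type*} [MeasurableSpace α] {μ : Measure α} {p : ℝ≥0∞}
  [Fact (1 ≤ p)]

/-- real functions as `𝕜`-valued functions -/
noncomputable def JJ : Lp ℝ p μ →L[ℝ] Lp 𝕜 p μ :=
  ContinuousLinearMap.compLpL p μ (RCLike.ofRealCLM : ℝ →L[ℝ] 𝕜)

lemma JJ_norm_le (w : Lp ℝ p μ) : ‖(JJ w : Lp 𝕜 p μ)‖ ≤ ‖w‖ := by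
  have h := ContinuousLinearMap.norm_compLp_le (RCLike.ofRealCLM : ℝ →L[ℝ] 𝕜) w
  have h1 : ‖(RCLike.ofRealCLM : ℝ →L[ℝ] 𝕜)‖ ≤ 1 := by
    refine ContinuousLinearMap.opNorm_le_bound _ zero_le_one fun x => ?_
    simp
  calc _ ≤ ‖(RCLike.ofRealCLM : ℝ →L[ℝ] 𝕜)‖ * ‖w‖ := h
    _ ≤ 1 * ‖w‖ := by gcongr
    _ = ‖w‖ := one_mul _

lemma decomp (f : Lp 𝕜 p μ) : ∃ g h : Lp ℝ p μ, f = JJ g + (RCLike.I : 𝕜) • JJ h := by
  refine ⟨ContinuousLinearMap.compLpL p μ (RCLike.reCLM : 𝕜 →L[ℝ] ℝ) f,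
    ContinuousLinearMap.compLpL p μ (RCLike.imCLM : 𝕜 →L[ℝ] ℝ) f, ?_⟩
  apply Lp.ext
  have h1 := ContinuousLinearMap.coeFn_compLpL (p := p) (μ := μ) (RCLike.reCLM : 𝕜 →L[ℝ] ℝ) f
  have h2 := ContinuousLinearMap.coeFn_compLpL (p := p) (μ := μ) (RCLike.imCLM : 𝕜 →L[ℝ] ℝ) f
  have h3 := ContinuousLinearMap.coeFn_compLpL (p := p) (μ := μ) (RCLike.ofRealCLM : ℝ →L[ℝ] 𝕜)
    (ContinuousLinearMap.compLpL p μ (RCLike.reCLM : 𝕜 →L[ℝ] ℝ) f)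
  have h4 := ContinuousLinearMap.coeFn_compLpL (p := p) (μ := μ) (RCLike.ofRealCLM : ℝ →L[ℝ] 𝕜)
    (ContinuousLinearMap.compLpL p μ (RCLike.imCLM : 𝕜 →L[ℝ] ℝ) f)
  have h5 := Lp.coeFn_add (JJ (ContinuousLinearMap.compLpL p μ (RCLike.reCLM : 𝕜 →L[ℝ] ℝ) f) :
    Lp 𝕜 p μ) ((RCLike.I : 𝕜) • JJ (ContinuousLinearMap.compLpL p μ (RCLike.imCLM : 𝕜 →L[ℝ] ℝ) f))
  have h6 := Lp.coeFn_smul (RCLike.I : 𝕜)
    (JJ (ContinuousLinearMap.compLpL p μ (RCLike.imCLM : 𝕜 →L[ℝ] ℝ) f) : Lp 𝕜 p μ)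
  filter_upwards [h1, h2, h3, h4, h5, h6] with x h1 h2 h3 h4 h5 h6
  rw [h5, Pi.add_apply, h6, Pi.smul_apply]
  unfold JJ
  rw [h3, h4, h1, h2]
  simp only [RCLike.ofRealCLM_apply, RCLike.reCLM_apply, RCLike.imCLM_apply, smul_eq_mul]
  rw [mul_comm]
  exact (RCLike.re_add_im _).symm

end cplx

end Pool.Agent.Helper685.HG
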